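import Pool.Agent.N202.M4.Stm
import Pool.Agent.W351.HB.PF
import Pool.Agent.W215.HB.Bilo
import Pool.Agent.W864.HB.Bilt
import Pool.Agent.W310.BMX.Rep

/-!
# The Hilbert symbol over the field of `l`-adic numbers is a symbol (part SYM)
-/

set_option autoImplicit false

namespace Pool.Agent.N446.M4

open Pool.Agent.N202.M4
open Pool.Agent.W313.BMX (Splits)

lemma spl_comm {F : Type} [Field F] {a b : F} : Splits a b ↔ Splits b a :=
  Pool.Agent.W928.BMX.splits_comm

lemma spl_sq {F : Type} [Field F] {a b c : F} (hc : c ≠ 0) :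
    Splits (a * c ^ 2) b ↔ Splits a b :=
  Pool.Agent.W928.BMX.splits_sq hc

lemma spl_sq' {F : Type} [Field F] {a b c : F} (hc : c ≠ 0) :
    Splits a (b * c ^ 2) ↔ Splits a b := by
  rw [spl_comm, spl_sq hc, spl_comm]

lemma hil_eq_one {F : Type} [Field F] {a b : F} : hil F a b = 1 ↔ Splits a b := by
  unfold hil
  split_ifs with h
  · simp [h]
  · simp [h]

lemma hil_congr {F : Type} [Field F] {a b c d : F} (h : Splits a b ↔ Splits c d) :
    hil F a b = hil F c d := by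
  unfold hil
  by_cases h1 : Splits a b
  · rw [if_pos h1, if_pos (h.1 h1)]
  · rw [if_neg h1, if_neg (fun h2 => h1 (h.2 h2))]

lemma hil_pm {F : Type} [Field F] (a b : F) : hil F a b = 1 ∨ hil F a b = -1 := by
  unfold hil
  split_ifs
  · exact Or.inl rfl
  · exact Or.inr rfl

lemma hil_symm {F : Type} [Field F] (a b : F) : hil F a b = hil F b a := hil_congr spl_comm

lemma hil_mul_iff {F : Type} [Field F] {a b c : F}
    (h : Splits a (b * c) ↔ (Splits a b ↔ Splits a c)) :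
    hil F a (b * c) = hil F a b * hil F a c := by
  unfold hil
  by_cases h1 : Splits a b <;> by_cases h2 : Splits a c <;> simp [h, h1, h2]

/-- every nonzero `l`-adic number is an integer up to squares -/
lemma exists_int (l : ℕ) [Fact l.Prime] (a : ℚ_[l]) (ha : a ≠ 0) :
    ∃ (n : ℤ) (c : ℚ_[l]), n ≠ 0 ∧ c ≠ 0 ∧ a = (n : ℚ_[l]) * c ^ 2 := by
  obtain ⟨t, m, c, -, -, hc, h⟩ := Pool.Agent.W310.BMX.odd4 l a ha
  refine ⟨_, c, ?_, hc, h⟩
  rintro h0
  rw [h0] at h
  apply ha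
  rw [h]
  simp

theorem sym_ : S_SYM := by
  intro l hl
  refine ⟨hil_pm, hil_symm, ?_, ?_⟩
  · intro a b c ha hb hc
    obtain ⟨n, x, hn, hx, rfl⟩ := exists_int l a ha
    obtain ⟨m, y, hm, hy, rfl⟩ := exists_int l b hb
    obtain ⟨k, z, hk, hz, rfl⟩ := exists_int l c hc
    have e : (m : ℚ_[l]) * y ^ 2 * ((k : ℚ_[l]) * z ^ 2) = ((m * k : ℤ) : ℚ_[l]) * (y * z) ^ 2 := by
      push_cast
      ring
    apply hil_mul_iff
    rw [e, spl_sq hx, spl_sq hx, spl_sq hx, spl_sq' (mul_ne_zero hy hz), spl_sq' hy, spl_sq' hz]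
    exact Pool.Agent.W351.HB.PF.bil Pool.Agent.W215.HB.bilo_ Pool.Agent.W864.HBm.bilt_
      ⟨l, hl.out⟩ n m k hn hm hk
  · intro a b x y _ _ h
    rw [hil_eq_one]
    exact ⟨x, y, 1, Or.inr (Or.inr one_ne_zero), by rw [one_pow, h]⟩

end Pool.Agent.N446.M4
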