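import Pool.Agent.N446.M4.Sym
import Pool.Agent.N202.QR.Hil

/-!
# Part MOD: Hasse invariants and the product formula
-/

set_option autoImplicit false

namespace Pool.Agent.N446.M4

open Pool.Agent.N202.M4
open Pool.Agent.W313.BMX (Splits ram diag)
open Pool.Agent.W351.HB.PF

/-! ### General facts on `hasse` -/

lemma hasse_map {E F : Type} (h : F → F → ℤ) (f : E → F) (L : List E) :
    hasse h (L.map f) = hasse (fun a b => h (f a) (f b)) L := by
  induction L with
  | nil => rfl
  | cons a L ih =>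
    simp only [List.map_cons, hasse, ih, List.map_map]
    rfl

lemma hasse_congr {F : Type} {h h' : F → F → ℤ} (L : List F)
    (e : ∀ a ∈ L, ∀ b ∈ L, h a b = h' a b) : hasse h L = hasse h' L := by
  induction L with
  | nil => rfl
  | cons a L ih =>
    simp only [hasse]
    rw [ih (fun x hx y hy => e x (List.mem_cons_of_mem _ hx) y (List.mem_cons_of_mem _ hy))]
    congr 2
    apply List.map_congr_left
    intro b hb
    exact e a List.mem_cons_self b (List.mem_cons_of_mem _ hb)

lemma hasse_pm {F : Type} {h : F → F → ℤ} (hpm : ∀ a b, h a b = 1 ∨ h a b = -1) (L : List F) :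
    hasse h L = 1 ∨ hasse h L = -1 := by
  induction L with
  | nil => exact Or.inl rfl
  | cons a L ih =>
    have h1 : ∀ M : List F, (M.map (h a)).prod = 1 ∨ (M.map (h a)).prod = -1 := by
      intro M
      induction M with
      | nil => left; rfl
      | cons b M ihM =>
        rw [List.map_cons, List.prod_cons]
        rcases hpm a b with e1 | e1 <;> rcases ihM with e2 | e2 <;> simp [e1, e2]
    simp only [hasse]
    rcases h1 L with e1 | e1 <;> rcases ih with e2 | e2 <;> simp [e1, e2]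

/-! ### The symbols at all places -/

/-- the Hilbert symbol of two integers at a place -/
noncomputable def hv (v : Option Nat.Primes) (a b : ℤ) : ℤ :=
  match v with
  | none => hil ℝ (a : ℝ) (b : ℝ)
  | some p => hil ℚ_[(p : ℕ)] (a : ℚ_[(p : ℕ)]) (b : ℚ_[(p : ℕ)])

lemma hv_pm (v : Option Nat.Primes) (a b : ℤ) : hv v a b = 1 ∨ hv v a b = -1 := by
  cases v with
  | none => exact hil_pm _ _
  | some p => exact hil_pm _ _

open Classical in
lemma hv_eq (v : Option Nat.Primes) (a b : ℤ) :
    hv v a b = if v ∈ ram (diag a) b then -1 else 1 := by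
  cases v with
  | none =>
    show hil ℝ (a : ℝ) (b : ℝ) = _
    unfold hil
    by_cases h : Splits (a : ℝ) (b : ℝ)
    · rw [if_pos h, if_neg (by rw [mem_none]; exact fun h2 => h2 h)]
    · rw [if_neg h, if_pos (by rw [mem_none]; exact h)]
  | some p =>
    show hil ℚ_[(p : ℕ)] (a : ℚ_[(p : ℕ)]) (b : ℚ_[(p : ℕ)]) = _
    unfold hil
    by_cases h : Splits (a : ℚ_[(p : ℕ)]) (b : ℚ_[(p : ℕ)])
    · rw [if_pos h, if_neg (by rw [mem_some]; exact fun h2 => h2 h)]
    · rw [if_neg h, if_pos (by rw [mem_some]; exact h)]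

/-- the product formula -/
lemma hv_prod (a b : ℤ) (ha : a ≠ 0) (hb : b ≠ 0) :
    ∃ S0 : Finset (Option Nat.Primes), ∀ S : Finset (Option Nat.Primes), S0 ⊆ S →
      ∏ v ∈ S, hv v a b = 1 := by
  classical
  obtain ⟨hf, he⟩ := ev_all Pool.Agent.W215.HB.bilo_ Pool.Agent.W864.HBm.bilt_ a b ha hb
  refine ⟨hf.toFinset, fun S hS => ?_⟩
  have h1 : ∏ v ∈ S, hv v a b = ∏ v ∈ S, if v ∈ hf.toFinset then (-1 : ℤ) else 1 := by
    apply Finset.prod_congr rfl
    intro v _
    rw [hv_eq]
    simp only [Set.Finite.mem_toFinset]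
  rw [h1, Finset.prod_ite_mem, Finset.inter_eq_right.2 hS, Finset.prod_const]
  rw [Set.ncard_eq_toFinset_card _ hf] at he
  exact he.neg_one_pow

lemma row_prod (a : ℤ) (ha : a ≠ 0) (L : List ℤ) (hL : ∀ b ∈ L, b ≠ 0) :
    ∃ S0 : Finset (Option Nat.Primes), ∀ S : Finset (Option Nat.Primes), S0 ⊆ S →
      ∏ v ∈ S, (L.map (hv v a)).prod = 1 := by
  classical
  induction L with
  | nil => exact ⟨∅, fun S _ => by simp⟩
  | cons b L ih =>
    obtain ⟨S1, h1⟩ := ih (fun c hc => hL c (List.mem_cons_of_mem _ hc))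
    obtain ⟨S2, h2⟩ := hv_prod a b ha (hL b List.mem_cons_self)
    refine ⟨S1 ∪ S2, fun S hS => ?_⟩
    simp only [List.map_cons, List.prod_cons, Finset.prod_mul_distrib]
    rw [h1 S (Finset.union_subset_left hS), h2 S (Finset.union_subset_right hS), one_mul]

lemma hasse_prod (L : List ℤ) (hL : ∀ b ∈ L, b ≠ 0) :
    ∃ S0 : Finset (Option Nat.Primes), ∀ S : Finset (Option Nat.Primes), S0 ⊆ S →
      ∏ v ∈ S, hasse (hv v) L = 1 := by
  classical
  induction L with
  | nil => exact ⟨∅, fun S _ => by simp [hasse]⟩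
  | cons a L ih =>
    obtain ⟨S1, h1⟩ := ih (fun c hc => hL c (List.mem_cons_of_mem _ hc))
    obtain ⟨S2, h2⟩ := row_prod a (hL a List.mem_cons_self) L
      (fun c hc => hL c (List.mem_cons_of_mem _ hc))
    refine ⟨S1 ∪ S2, fun S hS => ?_⟩
    simp only [hasse, Finset.prod_mul_distrib]
    rw [h1 S (Finset.union_subset_left hS), h2 S (Finset.union_subset_right hS), one_mul]

/-- if the invariants agree at all primes, then they agree at the real place -/
lemma real_eq (L M : List ℤ) (hL : ∀ b ∈ L, b ≠ 0) (hM : ∀ b ∈ M, b ≠ 0)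
    (h : ∀ p : Nat.Primes, hasse (hv (some p)) L = hasse (hv (some p)) M) :
    hasse (hv none) L = hasse (hv none) M := by
  classical
  obtain ⟨S1, h1⟩ := hasse_prod L hL
  obtain ⟨S2, h2⟩ := hasse_prod M hM
  have e1 := h1 (insert none (S1 ∪ S2)) (Finset.subset_union_left.trans (Finset.subset_insert _ _))
  have e2 := h2 (insert none (S1 ∪ S2)) (Finset.subset_union_right.trans (Finset.subset_insert _ _))
  rw [← Finset.mul_prod_erase _ _ (Finset.mem_insert_self none _)] at e1 e2
  have e3 : ∏ v ∈ (insert none (S1 ∪ S2)).erase none, hasse (hv v) L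
      = ∏ v ∈ (insert none (S1 ∪ S2)).erase none, hasse (hv v) M := by
    apply Finset.prod_congr rfl
    intro v hv'
    rw [Finset.mem_erase] at hv'
    cases v with
    | none => exact absurd rfl hv'.1
    | some p => exact h p
  rw [e3] at e1
  rw [← e2] at e1
  have e4 : ∏ v ∈ (insert none (S1 ∪ S2)).erase none, hasse (hv v) M ≠ 0 := by
    intro h0
    rw [h0, mul_zero] at e2
    exact absurd e2 (by norm_num)
  exact mul_right_cancel₀ e4 e1

/-! ### The real place -/

lemma hv_real (a b : ℤ) (ha : a ≠ 0) (hb : b ≠ 0) :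
    hv none a b = if a < 0 ∧ b < 0 then -1 else 1 := by
  have h := Pool.Agent.W928.BMX.splits_real a b ha hb
  show hil ℝ (a : ℝ) (b : ℝ) = _
  unfold hil
  by_cases h1 : Splits (a : ℝ) (b : ℝ)
  · rw [if_pos h1, if_neg (fun h2 => (h.2 h2) h1)]
  · rw [if_neg h1, if_pos (h.1 h1)]

/-- the number of negative entries -/
def negs (L : List ℤ) : ℕ := L.countP (fun a => decide (a < 0))

lemma row_real (a : ℤ) (ha : a ≠ 0) (L : List ℤ) (hL : ∀ b ∈ L, b ≠ 0) :
    (L.map (hv none a)).prod = if a < 0 then (-1) ^ negs L else 1 := by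
  induction L with
  | nil => simp [negs]
  | cons b L ih =>
    have hb := hL b List.mem_cons_self
    rw [List.map_cons, List.prod_cons, ih (fun c hc => hL c (List.mem_cons_of_mem _ hc)),
      hv_real a b ha hb]
    unfold negs
    rw [List.countP_cons]
    by_cases h1 : a < 0 <;> by_cases h2 : b < 0 <;> simp [h1, h2, pow_succ]

lemma hasse_real (L : List ℤ) (hL : ∀ b ∈ L, b ≠ 0) :
    hasse (hv none) L = (-1) ^ (negs L).choose 2 := by
  induction L with
  | nil => simp [hasse, negs]
  | cons a L ih =>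
    have ha := hL a List.mem_cons_self
    simp only [hasse]
    rw [ih (fun c hc => hL c (List.mem_cons_of_mem _ hc)),
      row_real a ha L (fun c hc => hL c (List.mem_cons_of_mem _ hc))]
    have h3 : negs (a :: L) = negs L + if a < 0 then 1 else 0 := by
      unfold negs
      rw [List.countP_cons]
      simp
    rw [h3]
    by_cases h1 : a < 0
    · rw [if_pos h1, if_pos h1, Nat.choose_succ_succ' (negs L) 1, Nat.choose_one_right, pow_add]
    · rw [if_neg h1, if_neg h1, one_mul, add_zero]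

lemma prod_sign (L : List ℤ) (hL : ∀ b ∈ L, b ≠ 0) : L.prod.sign = (-1) ^ negs L := by
  induction L with
  | nil => simp [negs]
  | cons a L ih =>
    have ha := hL a List.mem_cons_self
    have h3 : negs (a :: L) = negs L + if a < 0 then 1 else 0 := by
      unfold negs
      rw [List.countP_cons]
      simp
    rw [List.prod_cons, Int.sign_mul, ih (fun c hc => hL c (List.mem_cons_of_mem _ hc)), h3]
    rcases lt_or_gt_of_ne ha with h1 | h1
    · rw [Int.sign_eq_neg_one_of_neg h1, if_pos h1, pow_succ]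
      ring
    · rw [Int.sign_eq_one_of_pos h1, if_neg (not_lt.2 h1.le)]
      simp

lemma four_dvd (k : ℕ) (h1 : Even k) (h2 : Even (k.choose 2)) : 4 ∣ k := by
  obtain ⟨m, rfl⟩ := h1
  have h3 : (m + m).choose 2 = m * (2 * m - 1) := by
    rw [Nat.choose_two_right]
    have : (m + m) * (m + m - 1) = 2 * (m * (2 * m - 1)) := by
      rw [← two_mul]
      ring
    rw [this, Nat.mul_div_cancel_left _ (by norm_num)]
  rw [h3, Nat.even_mul] at h2
  rcases h2 with h2 | h2
  · obtain ⟨r, rfl⟩ := h2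
    exact ⟨r, by ring⟩
  · by_cases hm : m = 0
    · subst hm
      simp
    · exfalso
      rw [Nat.even_iff] at h2
      omega

/-! ### From rational numbers to integers -/

/-- an integer in the square class -/
def zn (x : ℚ) : ℤ := x.num * x.den

lemma zn_ne {x : ℚ} (hx : x ≠ 0) : zn x ≠ 0 :=
  mul_ne_zero (Rat.num_ne_zero.2 hx) (by exact_mod_cast x.den_nz)

lemma zn_neg {x : ℚ} : zn x < 0 ↔ x < 0 := by
  unfold zn
  have h : (0 : ℤ) < x.den := by exact_mod_cast x.den_pos
  rw [← Rat.num_neg]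
  constructor
  · intro h1
    by_contra h2
    exact absurd (mul_nonneg (not_lt.1 h2) h.le) (not_le.2 h1)
  · intro h1
    exact mul_neg_of_neg_of_pos h1 h

lemma zn_eq (x : ℚ) : x = (zn x : ℚ) * ((x.den : ℚ)⁻¹) ^ 2 := by
  have h1 := Rat.num_div_den x
  have h2 : (x.den : ℚ) ≠ 0 := by exact_mod_cast x.den_nz
  have h3 : (x.num : ℚ) = x * x.den := by
    rw [eq_comm, ← eq_div_iff h2, h1]
  unfold zn
  push_cast
  rw [h3]
  field_simp

lemma zn_eq' (x : ℚ) : (zn x : ℚ) = x * (x.den : ℚ) ^ 2 := by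
  have h1 := Rat.num_div_den x
  have h2 : (x.den : ℚ) ≠ 0 := by exact_mod_cast x.den_nz
  have h3 : (x.num : ℚ) = x * x.den := by
    rw [eq_comm, ← eq_div_iff h2, h1]
  unfold zn
  push_cast
  rw [h3]
  ring

lemma cast_zn {F : Type} [Field F] [CharZero F] (x : ℚ) :
    ∃ c : F, c ≠ 0 ∧ (x : F) = (zn x : F) * c ^ 2 := by
  refine ⟨((x.den : ℚ)⁻¹ : ℚ), ?_, ?_⟩
  · have : (x.den : ℚ)⁻¹ ≠ 0 := inv_ne_zero (by exact_mod_cast x.den_nz)
    exact_mod_cast this
  · have h := congrArg (Rat.cast : ℚ → F) (zn_eq x)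
    rw [Rat.cast_mul, Rat.cast_intCast, Rat.cast_pow] at h
    exact h

lemma hil_zn {F : Type} [Field F] [CharZero F] (x y : ℚ) :
    hil F (x : F) (y : F) = hil F (zn x : F) (zn y : F) := by
  obtain ⟨c, hc, h1⟩ := cast_zn (F := F) x
  obtain ⟨d, hd, h2⟩ := cast_zn (F := F) y
  apply hil_congr
  rw [h1, h2, spl_sq hc, spl_sq' hd]

/-- the list of integers -/
def zl {n : ℕ} (q : Fin n → ℚ) : List ℤ := List.ofFn fun i => zn (q i)

lemma zl_ne {n : ℕ} {q : Fin n → ℚ} (hq : ∀ i, q i ≠ 0) : ∀ b ∈ zl q, b ≠ 0 := by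
  intro b hb
  unfold zl at hb
  rw [List.mem_ofFn] at hb
  obtain ⟨i, rfl⟩ := hb
  exact zn_ne (hq i)

lemma hasse_zl {F : Type} [Field F] [CharZero F] {n : ℕ} (q : Fin n → ℚ) :
    hasse (hil F) (List.ofFn fun i => (q i : F))
      = hasse (fun a b : ℤ => hil F (a : F) (b : F)) (zl q) := by
  have e1 : (List.ofFn fun i => (q i : F)) = (List.ofFn q).map (fun x : ℚ => (x : F)) := by
    rw [List.map_ofFn]
    rfl
  have e2 : zl q = (List.ofFn q).map zn := by
    unfold zl
    rw [List.map_ofFn]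
    rfl
  rw [e1, e2, hasse_map, hasse_map]
  exact hasse_congr _ fun a _ b _ => hil_zn a b

lemma negs_zl {n : ℕ} (q : Fin n → ℚ) : negs (zl q) = Nat.card {i // q i < 0} := by
  classical
  have e : ∀ (m : ℕ) (r : Fin m → ℚ), negs (zl r) = (Finset.univ.filter (fun i => r i < 0)).card := by
    intro m
    induction m with
    | zero =>
      intro r
      simp [zl, negs]
    | succ m ih =>
      intro r
      have h1 : zl r = zn (r 0) :: zl (fun i => r i.succ) := by
        unfold zl
        rw [List.ofFn_succ]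
      have h2 : negs (zl r) = negs (zl fun i => r i.succ) + if r 0 < 0 then 1 else 0 := by
        rw [h1]
        unfold negs
        rw [List.countP_cons]
        simp [zn_neg]
      rw [h2, ih, Fin.card_filter_univ_succ]
      split_ifs <;> rfl
  rw [e, Nat.card_eq_fintype_card, Fintype.card_subtype]

theorem mod_ (h1 : S_HAS) (h2 : S_SYM) : S_MOD := by
  intro n q b hq hb hT
  have hb0 : ∀ i, b i ≠ 0 := fun i => (hb i).ne'
  -- the invariants at the primes
  have hp : ∀ p : Nat.Primes, hasse (hv (some p)) (zl q) = hasse (hv (some p)) (zl b) := by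
    intro p
    have : Fact (p : ℕ).Prime := ⟨p.2⟩
    have e := h1 ℚ_[(p : ℕ)] (hil ℚ_[(p : ℕ)]) (h2 (p : ℕ)) n (fun i => (q i : ℚ_[(p : ℕ)]))
      (fun i => (b i : ℚ_[(p : ℕ)])) (fun i => by exact_mod_cast hq i)
      (fun i => by exact_mod_cast hb0 i) (hT (p : ℕ))
    rw [hasse_zl, hasse_zl] at e
    exact e
  have hr := real_eq (zl q) (zl b) (zl_ne hq) (zl_ne hb0) hp
  rw [hasse_real _ (zl_ne hq), hasse_real _ (zl_ne hb0)] at hr
  have hnb : negs (zl b) = 0 := by
    rw [negs_zl]
    have : IsEmpty {i // b i < 0} := ⟨fun x => absurd (hb x.1) (not_lt.2 x.2.le)⟩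
    exact Nat.card_of_isEmpty
  rw [hnb] at hr
  have heven2 : Even ((negs (zl q)).choose 2) := by
    by_contra h
    rw [Nat.not_even_iff_odd] at h
    rw [h.neg_one_pow] at hr
    exact absurd hr (by norm_num)
  -- the determinant
  have hdet : 0 ≤ (∏ i, q i) * ∏ i, b i := by
    apply Pool.Agent.N202.QR.nonneg_of_norms (d := 1) one_pos
    intro l
    have : Fact (l : ℕ).Prime := ⟨l.2⟩
    obtain ⟨T, hT'⟩ := hT (l : ℕ)
    have h3 := congrArg Matrix.det hT'
    rw [Matrix.det_mul, Matrix.det_mul, Matrix.det_transpose, Matrix.det_diagonal,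
      Matrix.det_diagonal] at h3
    refine ⟨T.det * ∏ i, (b i : ℚ_[(l : ℕ)]), 0, ?_⟩
    push_cast
    rw [← h3]
    ring
  have hbp : 0 < ∏ i, b i := Finset.prod_pos fun i _ => hb i
  have hqp : 0 < ∏ i, q i := by
    have h3 : (∏ i, q i) ≠ 0 := Finset.prod_ne_zero_iff.2 fun i _ => hq i
    rcases lt_or_gt_of_ne h3 with h4 | h4
    · exact absurd hdet (not_le.2 (mul_neg_of_neg_of_pos h4 hbp))
    · exact h4
  have hsq : (zl q).prod.sign = 1 := by
    apply Int.sign_eq_one_of_pos
    have h3 : ((zl q).prod : ℚ) = (∏ i, q i) * ∏ i, ((q i).den : ℚ) ^ 2 := by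
      unfold zl
      rw [List.prod_ofFn]
      push_cast
      rw [← Finset.prod_mul_distrib]
      apply Finset.prod_congr rfl
      intro i _
      exact zn_eq' (q i)
    have h6 : (0 : ℚ) < ((zl q).prod : ℚ) := by
      rw [h3]
      apply mul_pos hqp
      apply Finset.prod_pos
      intro i _
      have : (0 : ℚ) < ((q i).den : ℚ) := by exact_mod_cast (q i).den_pos
      positivity
    exact_mod_cast h6
  rw [prod_sign _ (zl_ne hq)] at hsq
  have heven : Even (negs (zl q)) := by
    by_contra h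
    rw [Nat.not_even_iff_odd] at h
    rw [h.neg_one_pow] at hsq
    exact absurd hsq (by norm_num)
  rw [← negs_zl]
  exact four_dvd _ heven heven2

end Pool.Agent.N446.M4
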